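import Mathlib

/-!
Tensor words, contractions, and classes of cycles.
-/

namespace Pool.Agent.H20.TT

open scoped TensorProduct

section Tensor

variable {Ω : Type*} [Field Ω] {W : Type*} [AddCommGroup W] [Module Ω W]

/-- The multilinear map `x ↦ B (x 0) (x 1) • (x 2 ⊗ x 3 ⊗ ...)`. -/
noncomputable def contrMul (B : W →ₗ[Ω] W →ₗ[Ω] Ω) (n : ℕ) :
    MultilinearMap Ω (fun _ : Fin (n + 2) => W) (⨂[Ω]^n W) :=
  LinearMap.uncurryLeft
    { toFun := fun a => LinearMap.uncurryLeft
        { toFun := fun b => B a b • PiTensorProduct.tprod Ω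
          map_add' := fun b c => by rw [map_add, add_smul]
          map_smul' := fun r b => by
            rw [map_smul, smul_eq_mul, mul_smul, RingHom.id_apply] }
      map_add' := fun a a' => by
        ext x
        simp [LinearMap.uncurryLeft_apply, add_smul]
      map_smul' := fun r a => by
        ext x
        simp [LinearMap.uncurryLeft_apply, mul_smul] }

theorem contrMul_apply (B : W →ₗ[Ω] W →ₗ[Ω] Ω) (n : ℕ) (x : Fin (n + 2) → W) :
    contrMul B n x = B (x 0) (x 1) • PiTensorProduct.tprod Ω (fun i : Fin n => x i.succ.succ) := by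
  simp only [contrMul, LinearMap.uncurryLeft_apply]
  rfl

/-- The contraction of the first two factors by a bilinear form. -/
noncomputable def contr (B : W →ₗ[Ω] W →ₗ[Ω] Ω) (n : ℕ) : (⨂[Ω]^(n + 2) W) →ₗ[Ω] (⨂[Ω]^n W) :=
  PiTensorProduct.lift (contrMul B n)

theorem contr_tprod (B : W →ₗ[Ω] W →ₗ[Ω] Ω) (n : ℕ) (x : Fin (n + 2) → W) :
    contr B n (PiTensorProduct.tprod Ω x) =
      B (x 0) (x 1) • PiTensorProduct.tprod Ω (fun i : Fin n => x i.succ.succ) := by
  rw [contr, PiTensorProduct.lift.tprod, contrMul_apply]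

end Tensor

end Pool.Agent.H20.TT
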