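import Mathlib

/-!
Weil numbers.
-/

namespace Pool.Agent.H20.TT

variable {Ω : Type*} [Field Ω]

/-- `a` is a Weil `q`-number of weight `w`: an algebraic integer such that `σ a` has absolute value
`q ^ (w / 2)` for every ring homomorphism `σ` from the ring of algebraic integers to `ℂ`. -/
def IsWeil (q w : ℕ) (a : Ω) : Prop :=
  ∃ h : a ∈ integralClosure ℤ Ω, ∀ σ : integralClosure ℤ Ω →+* ℂ,
    ‖σ ⟨a, h⟩‖ = (q : ℝ) ^ ((w : ℝ) / 2)

theorem IsWeil.mul {q v w : ℕ} (hq : 0 < q) {a b : Ω} (ha : IsWeil q v a) (hb : IsWeil q w b) :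
    IsWeil q (v + w) (a * b) := by
  obtain ⟨h1, h2⟩ := ha
  obtain ⟨h3, h4⟩ := hb
  refine ⟨mul_mem h1 h3, fun σ => ?_⟩
  have h5 : (⟨a * b, mul_mem h1 h3⟩ : integralClosure ℤ Ω) = ⟨a, h1⟩ * ⟨b, h3⟩ := rfl
  have hq' : (0 : ℝ) < q := by exact_mod_cast hq
  rw [h5, map_mul, norm_mul, h2, h4, ← Real.rpow_add hq']
  congr 1
  push_cast
  ring

theorem IsWeil.one {q : ℕ} : IsWeil q 0 (1 : Ω) := by
  refine ⟨one_mem _, fun σ => ?_⟩
  have h5 : (⟨1, one_mem _⟩ : integralClosure ℤ Ω) = 1 := rfl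
  rw [h5, map_one]
  simp

theorem IsWeil.list_prod {q : ℕ} (hq : 0 < q) (l : List Ω) (h : ∀ a ∈ l, IsWeil q 1 a) :
    IsWeil q l.length l.prod := by
  induction l with
  | nil => exact IsWeil.one
  | cons a l ih =>
    rw [List.prod_cons, List.length_cons, add_comm]
    exact (h a (by simp)).mul hq (ih fun b hb => h b (by simp [hb]))

theorem IsWeil.root {q i : ℕ} (hi : i ≠ 0) {a g : Ω} (ha : IsWeil q i a) (hg : g ^ i = a) :
    IsWeil q 1 g := by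
  obtain ⟨h1, h2⟩ := ha
  have hgi : g ∈ integralClosure ℤ Ω := by
    have h3 : IsIntegral ℤ (g ^ i) := by rw [hg]; exact h1
    exact IsIntegral.of_pow (Nat.pos_of_ne_zero hi) h3
  refine ⟨hgi, fun σ => ?_⟩
  have h3 : (⟨g, hgi⟩ : integralClosure ℤ Ω) ^ i = ⟨a, h1⟩ := Subtype.ext hg
  have h4 : ‖σ ⟨g, hgi⟩‖ ^ i = ((q : ℝ) ^ (((1 : ℕ) : ℝ) / 2)) ^ i := by
    rw [← norm_pow, ← map_pow, h3, h2, ← Real.rpow_natCast ((q : ℝ) ^ (((1 : ℕ) : ℝ) / 2)),
      ← Real.rpow_mul (Nat.cast_nonneg _)]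
    congr 1
    push_cast
    ring
  exact (pow_left_inj₀ (norm_nonneg _) (Real.rpow_nonneg (Nat.cast_nonneg _) _) hi).1 h4

theorem exists_hom [CharZero Ω] : Nonempty (integralClosure ℤ Ω →+* ℂ) := by
  have hmem : ∀ x : integralClosure ℤ Ω, (x : Ω) ∈ algebraicClosure ℚ Ω := by
    intro x
    have h1 : IsIntegral ℤ (x : Ω) := x.2
    have h2 : IsIntegral ℚ (x : Ω) := h1.tower_top
    exact (mem_algebraicClosure_iff).2 h2.isAlgebraic
  let f : integralClosure ℤ Ω →+* algebraicClosure ℚ Ω :=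
    { toFun := fun x => ⟨x, hmem x⟩
      map_one' := rfl
      map_mul' := fun _ _ => rfl
      map_zero' := rfl
      map_add' := fun _ _ => rfl }
  have : Algebra.IsAlgebraic ℚ (algebraicClosure ℚ Ω) := by
    convert algebraicClosure.isAlgebraic ℚ Ω
    · rfl
    · exact Subsingleton.elim _ _
  let g : algebraicClosure ℚ Ω →ₐ[ℚ] ℂ := IsAlgClosed.lift
  exact ⟨g.toRingHom.comp f⟩

theorem IsWeil.ne_zero [CharZero Ω] {q w : ℕ} (hq : 0 < q) {a : Ω} (ha : IsWeil q w a) : a ≠ 0 := by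
  rintro rfl
  obtain ⟨h1, h2⟩ := ha
  obtain ⟨σ⟩ := exists_hom (Ω := Ω)
  have h3 : (⟨0, h1⟩ : integralClosure ℤ Ω) = 0 := rfl
  have h4 := h2 σ
  rw [h3, map_zero, norm_zero] at h4
  have hq' : (0 : ℝ) < q := by exact_mod_cast hq
  exact (Real.rpow_pos_of_pos hq' _).ne h4

/-- The weight is determined by the number, even up to a root of unity. -/
theorem IsWeil.weight_unique [CharZero Ω] {q v w N : ℕ} (hq : 1 < q) (hN : N ≠ 0) {a b : Ω}
    (ha : IsWeil q v a) (hb : IsWeil q w b) (h : a ^ N = b ^ N) : v = w := by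
  obtain ⟨h1, h2⟩ := ha
  obtain ⟨h3, h4⟩ := hb
  obtain ⟨σ⟩ := exists_hom (Ω := Ω)
  have h5 : (⟨a, h1⟩ : integralClosure ℤ Ω) ^ N = ⟨b, h3⟩ ^ N := Subtype.ext h
  have h6 : ‖σ ⟨a, h1⟩‖ ^ N = ‖σ ⟨b, h3⟩‖ ^ N := by
    rw [← norm_pow, ← map_pow, h5, map_pow, norm_pow]
  have h7 := (pow_left_inj₀ (norm_nonneg _) (norm_nonneg _) hN).1 h6
  rw [h2, h4] at h7
  have hq' : (1 : ℝ) < q := by exact_mod_cast hq
  have h8 := (Real.rpow_right_inj (by linarith) (ne_of_gt hq')).1 h7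
  have h9 : (v : ℝ) = w := by linarith
  exact_mod_cast h9

theorem isWeil_natCast {q : ℕ} : IsWeil q 2 (q : Ω) := by
  refine ⟨natCast_mem _ q, fun σ => ?_⟩
  have h : (⟨(q : Ω), natCast_mem _ q⟩ : integralClosure ℤ Ω) = (q : integralClosure ℤ Ω) := rfl
  rw [h, map_natCast, Complex.norm_natCast]
  have : ((2 : ℕ) : ℝ) / 2 = 1 := by norm_num
  rw [this, Real.rpow_one]

theorem isWeil_pow {q w : ℕ} (hq : 0 < q) {a : Ω} (ha : IsWeil q w a) (k : ℕ) :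
    IsWeil q (k * w) (a ^ k) := by
  induction k with
  | zero => simpa using (IsWeil.one : IsWeil q 0 (1 : Ω))
  | succ k ih =>
    rw [pow_succ, Nat.succ_mul]
    exact ih.mul hq ha

end Pool.Agent.H20.TT
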