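import Pool.Agent.H20.TT.Words
import Pool.Agent.H20.TT.Weil

/-!
Codimension two suffices for products of curves over finite fields.
-/

namespace Pool.Agent.H20.TT

open scoped TensorProduct

variable {Ω : Type*} [Field Ω] {W : Type*} [AddCommGroup W] [Module Ω W]

/-- `a` and `b` agree up to a root of unity. -/
def Sim (a b : Ω) : Prop := ∃ N : ℕ, N ≠ 0 ∧ a ^ N = b ^ N

theorem Sim.refl (a : Ω) : Sim a a := ⟨1, one_ne_zero, rfl⟩

theorem Sim.symm {a b : Ω} (h : Sim a b) : Sim b a := by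
  obtain ⟨N, h1, h2⟩ := h
  exact ⟨N, h1, h2.symm⟩

theorem Sim.mul {a b c d : Ω} (h : Sim a b) (h' : Sim c d) : Sim (a * c) (b * d) := by
  obtain ⟨N, h1, h2⟩ := h
  obtain ⟨M, h3, h4⟩ := h'
  refine ⟨N * M, mul_ne_zero h1 h3, ?_⟩
  rw [mul_pow, mul_pow, pow_mul, h2, ← pow_mul, mul_comm N M, pow_mul c, h4, ← pow_mul]

theorem Sim.trans {a b c : Ω} (h : Sim a b) (h' : Sim b c) : Sim a c := by
  obtain ⟨N, h1, h2⟩ := h
  obtain ⟨M, h3, h4⟩ := h'
  refine ⟨N * M, mul_ne_zero h1 h3, ?_⟩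
  rw [pow_mul, h2, ← pow_mul, mul_comm N M, pow_mul b, h4, ← pow_mul]

theorem Sim.inv {a b : Ω} (h : Sim a b) : Sim a⁻¹ b⁻¹ := by
  obtain ⟨N, h1, h2⟩ := h
  exact ⟨N, h1, by rw [inv_pow, inv_pow, h2]⟩

theorem Sim.pow {a b : Ω} (h : Sim a b) (k : ℕ) : Sim (a ^ k) (b ^ k) := by
  obtain ⟨N, h1, h2⟩ := h
  exact ⟨N, h1, by rw [← pow_mul, mul_comm, pow_mul, h2, ← pow_mul, mul_comm, pow_mul]⟩

theorem Sim.of_pow {a b : Ω} {k : ℕ} (hk : k ≠ 0) (h : Sim (a ^ k) (b ^ k)) : Sim a b := by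
  obtain ⟨N, h1, h2⟩ := h
  exact ⟨k * N, mul_ne_zero hk h1, by rw [pow_mul, pow_mul, h2]⟩

/-- The data and the known facts about the first cohomology groups of curves over the field
with `q` elements: `H` is the direct sum of the groups `H ^ 1` of all curves, `E` is that of a
supersingular elliptic curve. -/
structure Curves (q : ℕ) (F : W →ₗ[Ω] W) (B : W →ₗ[Ω] W →ₗ[Ω] Ω) (H E : Submodule Ω W) : Prop where
  le : E ≤ H
  adj : ∀ x ∈ H, ∀ y ∈ H, B (F x) (F y) = (q : Ω) * B x y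
  span : ∀ x ∈ H, x ∈ Submodule.span Ω {v : W | v ∈ H ∧ ∃ μ : Ω, F v = μ • v}
  nondeg : ∀ x ∈ H, x ≠ 0 → ∃ y ∈ H, B x y ≠ 0
  honda : ∀ g : Ω, IsWeil q 1 g → ∃ u ∈ H, u ≠ 0 ∧ F u = g • u
  spanE : ∀ x ∈ E, x ∈ Submodule.span Ω {v : W | v ∈ E ∧ ∃ μ : Ω, F v = μ • v}
  nondegE : ∀ x ∈ E, x ≠ 0 → ∃ y ∈ E, B x y ≠ 0
  ne_bot : ∃ x ∈ E, x ≠ 0
  super : ∀ v ∈ E, v ≠ 0 → ∀ μ : Ω, F v = μ • v → Sim (μ ^ 2) (q : Ω)

/-- Dual eigenvectors. -/
theorem exists_dual {q : ℕ} {F : W →ₗ[Ω] W} {B : W →ₗ[Ω] W →ₗ[Ω] Ω} {K : Submodule Ω W}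
    (adj : ∀ x ∈ K, ∀ y ∈ K, B (F x) (F y) = (q : Ω) * B x y)
    (span : ∀ x ∈ K, x ∈ Submodule.span Ω {v : W | v ∈ K ∧ ∃ μ : Ω, F v = μ • v})
    (nondeg : ∀ x ∈ K, x ≠ 0 → ∃ y ∈ K, B x y ≠ 0)
    {u : W} (hu : u ∈ K) (hu0 : u ≠ 0) {g : Ω} (hg : F u = g • u) :
    ∃ w ∈ K, ∃ ν : Ω, F w = ν • w ∧ g * ν = (q : Ω) ∧ B u w ≠ 0 := by
  obtain ⟨y, hy, hBy⟩ := nondeg u hu hu0
  by_contra hcon
  push Not at hcon
  apply hBy
  have h1 : y ∈ (LinearMap.ker (B u)) := by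
    have h2 : Submodule.span Ω {v : W | v ∈ K ∧ ∃ μ : Ω, F v = μ • v} ≤ LinearMap.ker (B u) := by
      rw [Submodule.span_le]
      rintro v ⟨hv, ν, hν⟩
      rw [SetLike.mem_coe, LinearMap.mem_ker]
      by_contra hne
      refine hne (hcon v hv ν hν ?_)
      have h3 := adj u hu v hv
      rw [hg, hν, map_smul, map_smul, LinearMap.smul_apply, smul_eq_mul, smul_eq_mul,
        ← mul_assoc] at h3
      have h4 := mul_right_cancel₀ hne h3
      rw [mul_comm]; exact h4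
    exact h2 (span y hy)
  exact LinearMap.mem_ker.1 h1

/-- The vector `v` is an eigenvector in `H` with eigenvalue `r * ξ` up to a root of unity. -/
def Letter (F : W →ₗ[Ω] W) (H : Submodule Ω W) (r ξ : Ω) (v : W) : Prop :=
  v ∈ H ∧ ∃ μ : Ω, F v = μ • v ∧ Sim μ (r * ξ)

/-- All words of eigenvectors with these eigenvalues are algebraic. -/
def P {B : W →ₗ[Ω] W →ₗ[Ω] Ω} (Z : Cycles B) (F : W →ₗ[Ω] W) (H : Submodule Ω W) (r : Ω)
    (s : Multiset Ω) : Prop :=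
  ∀ t : Multiset W, Multiset.Rel (Letter F H r) s t → Z.Good t

section

variable {q : ℕ} {F : W →ₗ[Ω] W} {B : W →ₗ[Ω] W →ₗ[Ω] Ω} {H E : Submodule Ω W} {Z : Cycles B}
  {r : Ω}

theorem P_zero : P Z F H r 0 := by
  intro t ht
  rw [Multiset.rel_zero_left] at ht
  rw [ht]
  exact Z.good_zero

theorem P_add {s t : Multiset Ω} (hs : P Z F H r s) (ht : P Z F H r t) : P Z F H r (s + t) := by
  intro u hu
  obtain ⟨u1, u2, h1, h2, rfl⟩ := Multiset.rel_add_left.1 hu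
  exact Z.good_add (hs _ h1) (ht _ h2)

theorem P_congr {ξ η : Ω} (h : Sim ξ η) {s : Multiset Ω} (hs : P Z F H r (ξ ::ₘ s)) :
    P Z F H r (η ::ₘ s) := by
  intro u hu
  obtain ⟨v, t, ⟨hv, μ, hμ, hs1⟩, ht, rfl⟩ := Multiset.rel_cons_left.1 hu
  exact hs _ (Multiset.rel_cons_left.2
    ⟨v, t, ⟨hv, μ, hμ, hs1.trans ((Sim.refl r).mul h.symm)⟩, ht, rfl⟩)

/-- Tate classes on products of two curves are algebraic. -/
def Pairs (F : W →ₗ[Ω] W) (H : Submodule Ω W) (q : ℕ) (Z : Cycles B) : Prop :=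
  ∀ u ∈ H, ∀ w ∈ H, ∀ μ ν : Ω, F u = μ • u → F w = ν • w → Sim (μ * ν) (q : Ω) →
    Z.Good {u, w}

/-- Tate classes of codimension two on products of three curves and a supersingular elliptic
curve. -/
def Quads (F : W →ₗ[Ω] W) (H E : Submodule Ω W) (q : ℕ) (Z : Cycles B) : Prop :=
  ∀ x ∈ H, ∀ y ∈ H, ∀ z ∈ H, ∀ e ∈ E, ∀ a b c d : Ω, F x = a • x → F y = b • y →
    F z = c • z → F e = d • e → Sim (a * b * c * d) ((q : Ω) ^ 2) → Z.Good {x, y, z, e}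

/-- An eigenvector in `E` has eigenvalue `r` up to a root of unity. -/
theorem letter_E (hC : Curves q F B H E) (hr : r ^ 2 = (q : Ω)) {e : W} (he : e ∈ E)
    (he0 : e ≠ 0) {ε : Ω} (hε : F e = ε • e) : Sim ε r := by
  refine Sim.of_pow two_ne_zero ?_
  rw [hr]
  exact hC.super e he he0 ε hε

theorem exists_E (hC : Curves q F B H E) (hr : r ^ 2 = (q : Ω)) :
    ∃ e ∈ E, ∃ e' ∈ E, ∃ ε ε' : Ω, e ≠ 0 ∧ e' ≠ 0 ∧ F e = ε • e ∧ F e' = ε' • e' ∧
      ε * ε' = (q : Ω) ∧ Sim ε r ∧ Sim ε' r ∧ B e e' ≠ 0 := by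
  obtain ⟨x, hx, hx0⟩ := hC.ne_bot
  obtain ⟨e, he, he0, ε, hε⟩ : ∃ e ∈ E, e ≠ 0 ∧ ∃ ε : Ω, F e = ε • e := by
    by_contra hcon
    push Not at hcon
    apply hx0
    have h1 := hC.spanE x hx
    have h2 : {v : W | v ∈ E ∧ ∃ μ : Ω, F v = μ • v} ⊆ {0} := by
      rintro v ⟨hv, μ, hμ⟩
      by_contra hne
      exact hcon v hv hne μ hμ
    have h3 := Submodule.span_mono h2 h1
    simpa using h3
  obtain ⟨e', he', ε', hε', hεε, hB⟩ := exists_dual
    (fun x hx y hy => hC.adj x (hC.le hx) y (hC.le hy)) hC.spanE hC.nondegE he he0 hε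
  have he0' : e' ≠ 0 := by
    rintro rfl
    exact hB (map_zero _)
  exact ⟨e, he, e', he', ε, ε', he0, he0', hε, hε', hεε, letter_E hC hr he he0 hε,
    letter_E hC hr he' he0' hε', hB⟩

theorem P_contract (hC : Curves q F B H E) (hr : r ^ 2 = (q : Ω)) {s : Multiset Ω}
    (h : P Z F H r (1 ::ₘ 1 ::ₘ s)) : P Z F H r s := by
  intro t ht
  obtain ⟨e, he, e', he', ε, ε', -, -, hε, hε', -, h1, h2, hB⟩ := exists_E hC hr
  refine Z.good_contr (x := e) (y := e') ?_ hB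
  apply h
  refine Multiset.Rel.cons ⟨hC.le he, ε, hε, by rwa [mul_one]⟩
    (Multiset.Rel.cons ⟨hC.le he', ε', hε', by rwa [mul_one]⟩ ht)

theorem P_one_one (hr : r ^ 2 = (q : Ω)) (h2 : Pairs F H q Z) :
    P Z F H r {1, 1} := by
  intro t ht
  obtain ⟨u, t', ⟨hu, μ, hμ, h1⟩, ht', rfl⟩ := Multiset.rel_cons_left.1 ht
  obtain ⟨w, t'', ⟨hw, ν, hν, h3⟩, ht'', rfl⟩ := Multiset.rel_cons_left.1 ht'
  rw [Multiset.rel_zero_left] at ht''
  subst ht''
  refine h2 u hu w hw μ ν hμ hν ?_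
  have h4 := h1.mul h3
  rwa [mul_one, ← pow_two, hr] at h4

theorem P_replicate (hr : r ^ 2 = (q : Ω)) (h2 : Pairs F H q Z) (k : ℕ) :
    P Z F H r (Multiset.replicate (2 * k) 1) := by
  induction k with
  | zero => simpa using (P_zero : P Z F H r 0)
  | succ k ih =>
    have h1 := P_add (P_one_one hr h2) ih
    have h3 : (Multiset.replicate (2 * (k + 1)) (1 : Ω)) = {1, 1} + Multiset.replicate (2 * k) 1 := by
      rw [show 2 * (k + 1) = 2 * k + 1 + 1 by ring, Multiset.replicate_succ,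
        Multiset.replicate_succ]
      rfl
    rw [h3]
    exact h1

theorem P_contract_replicate (hC : Curves q F B H E) (hr : r ^ 2 = (q : Ω)) {s : Multiset Ω}
    (k : ℕ) (h : P Z F H r (Multiset.replicate (2 * k) 1 + s)) : P Z F H r s := by
  induction k with
  | zero => simpa using h
  | succ k ih =>
    apply ih
    rw [show 2 * (k + 1) = 2 * k + 1 + 1 by ring, Multiset.replicate_succ,
      Multiset.replicate_succ, Multiset.cons_add, Multiset.cons_add] at h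
    exact P_contract hC hr h

/-- Splitting a letter. -/
theorem P_split (hC : Curves q F B H E) (hr : r ^ 2 = (q : Ω)) (h4 : Quads F H E q Z)
    {ξ η : Ω} (hU : IsWeil q 1 (r * (ξ * η))) {s : Multiset Ω}
    (h : P Z F H r ((ξ * η) ::ₘ 1 ::ₘ s)) : P Z F H r (ξ ::ₘ η ::ₘ s) := by
  intro t ht
  obtain ⟨x, t1, ⟨hx, a, ha, ha'⟩, ht1, rfl⟩ := Multiset.rel_cons_left.1 ht
  obtain ⟨y, t2, ⟨hy, b, hb, hb'⟩, ht2, rfl⟩ := Multiset.rel_cons_left.1 ht1
  obtain ⟨z, hz, hz0, hzg⟩ := hC.honda _ hU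
  obtain ⟨z', hz', ν, hν, hgν, hBz⟩ := exists_dual hC.adj hC.span hC.nondeg hz hz0 hzg
  obtain ⟨e, he, e', he', ε, ε', -, -, hε, hε', hεε, h1, h2, hB⟩ := exists_E hC hr
  have h3 : Z.Good {x, y, z', e'} := by
    refine h4 x hx y hy z' hz' e' he' a b ν ε' ha hb hν hε' ?_
    have h5 := ((ha'.mul hb').mul (Sim.refl ν)).mul h2
    have h6 : r * ξ * (r * η) * ν * r = (q : Ω) ^ 2 := by
      have : r * ξ * (r * η) * ν * r = r ^ 2 * (r * (ξ * η) * ν) := by ring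
      rw [this, hgν, hr]; ring
    rwa [h6] at h5
  have h5 : Z.Good (z ::ₘ e ::ₘ t2) := by
    apply h
    exact Multiset.Rel.cons ⟨hz, _, hzg, Sim.refl _⟩
      (Multiset.Rel.cons ⟨hC.le he, ε, hε, by rwa [mul_one]⟩ ht2)
  have h6 := Z.good_add h3 h5
  have h7 : ({x, y, z', e'} : Multiset W) + (z ::ₘ e ::ₘ t2) =
      z ::ₘ z' ::ₘ e ::ₘ e' ::ₘ x ::ₘ y ::ₘ t2 := by
    simp only [Multiset.insert_eq_cons, ← Multiset.singleton_add]
    abel
  rw [h7] at h6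
  exact Z.good_contr (Z.good_contr h6 hBz) hB

/-- Merging two letters. -/
theorem P_merge (hC : Curves q F B H E) (hr : r ^ 2 = (q : Ω)) (h2 : Pairs F H q Z)
    (h4 : Quads F H E q Z) {ξ η : Ω} (hξ : IsWeil q 1 (r * ξ)) (hη : IsWeil q 1 (r * η))
    {s : Multiset Ω} (h : P Z F H r (ξ ::ₘ η ::ₘ s)) : P Z F H r ((ξ * η) ::ₘ 1 ::ₘ s) := by
  intro t ht
  obtain ⟨z, t1, ⟨hz, c, hc, hc'⟩, ht1, rfl⟩ := Multiset.rel_cons_left.1 ht
  obtain ⟨e0, t2, ⟨he0, d, hd, hd'⟩, ht2, rfl⟩ := Multiset.rel_cons_left.1 ht1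
  obtain ⟨x, hx, hx0, hxg⟩ := hC.honda _ hξ
  obtain ⟨x', hx', ν, hν, hgν, hBx⟩ := exists_dual hC.adj hC.span hC.nondeg hx hx0 hxg
  obtain ⟨y, hy, hy0, hyg⟩ := hC.honda _ hη
  obtain ⟨y', hy', ρ, hρ, hgρ, hBy⟩ := exists_dual hC.adj hC.span hC.nondeg hy hy0 hyg
  obtain ⟨e, he, e', he', ε, ε', -, -, hε, hε', hεε, h5, h6, hB⟩ := exists_E hC hr
  have h7 : Z.Good {x', y', z, e} := by
    refine h4 x' hx' y' hy' z hz e he ν ρ c ε hν hρ hc hε ?_
    have h8 := (((Sim.refl ν).mul (Sim.refl ρ)).mul hc').mul h5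
    have h9 : ν * ρ * (r * (ξ * η)) * r = (q : Ω) ^ 2 := by
      have : ν * ρ * (r * (ξ * η)) * r = (r * ξ * ν) * (r * η * ρ) := by ring
      rw [this, hgν, hgρ]; ring
    rwa [h9] at h8
  have h8 : Z.Good {e', e0} := by
    refine h2 e' (hC.le he') e0 he0 ε' d hε' hd ?_
    have h9 := h6.mul hd'
    rwa [mul_one, ← pow_two, hr] at h9
  have h9 : Z.Good (x ::ₘ y ::ₘ t2) := by
    apply h
    exact Multiset.Rel.cons ⟨hx, _, hxg, Sim.refl _⟩
      (Multiset.Rel.cons ⟨hy, _, hyg, Sim.refl _⟩ ht2)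
  have h10 := Z.good_add (Z.good_add h7 h8) h9
  have h11 : ({x', y', z, e} : Multiset W) + {e', e0} + (x ::ₘ y ::ₘ t2) =
      x ::ₘ x' ::ₘ y ::ₘ y' ::ₘ e ::ₘ e' ::ₘ z ::ₘ e0 ::ₘ t2 := by
    simp only [Multiset.insert_eq_cons, ← Multiset.singleton_add]
    abel
  rw [h11] at h10
  exact Z.good_contr (Z.good_contr (Z.good_contr h10 hBx) hBy) hB

theorem weil_r (hr : r ^ 2 = (q : Ω)) : IsWeil q 1 (r * 1) := by
  rw [mul_one]
  exact isWeil_natCast.root two_ne_zero hr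

/-- Splitting a product of a list. -/
theorem P_split_list (hC : Curves q F B H E) (hr : r ^ 2 = (q : Ω)) (h4 : Quads F H E q Z)
    (l : List Ω) : ∀ (c : Ω) (s : Multiset Ω),
    (∀ n, IsWeil q 1 (r * (c * (l.take n).prod))) →
    P Z F H r ((c * l.prod) ::ₘ (Multiset.replicate l.length 1 + s)) →
    P Z F H r (c ::ₘ ((l : Multiset Ω) + s)) := by
  induction l with
  | nil =>
    intro c s _ h
    simpa using h
  | cons a l ih =>
    intro c s hU h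
    have h1 : P Z F H r ((c * a) ::ₘ ((l : Multiset Ω) + (1 ::ₘ s))) := by
      refine ih (c * a) (1 ::ₘ s) (fun n => ?_) ?_
      · have := hU (n + 1)
        rwa [List.take_succ_cons, List.prod_cons, ← mul_assoc c a] at this
      · rw [List.prod_cons, List.length_cons, Multiset.replicate_succ, ← mul_assoc c a] at h
        rw [Multiset.add_cons]
        rwa [Multiset.cons_add] at h
    have h2 : P Z F H r ((c * a) ::ₘ 1 ::ₘ ((l : Multiset Ω) + s)) := by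
      rwa [Multiset.add_cons] at h1
    have h3 := P_split hC hr h4 (ξ := c) (η := a) (by
      have := hU 1
      simpa using this) h2
    rw [← Multiset.cons_coe, Multiset.cons_add]
    exact h3

/-- Merging a power. -/
theorem P_merge_pow (hC : Curves q F B H E) (hr : r ^ 2 = (q : Ω)) (h2 : Pairs F H q Z)
    (h4 : Quads F H E q Z) (a : Ω) (N : ℕ) (hU : ∀ j ≤ N, IsWeil q 1 (r * a ^ j)) :
    ∀ n ≤ N, ∀ s : Multiset Ω, P Z F H r (1 ::ₘ (Multiset.replicate n a + s)) →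
    P Z F H r (a ^ n ::ₘ (Multiset.replicate n 1 + s)) := by
  intro n
  induction n with
  | zero =>
    intro _ s h
    simpa using h
  | succ n ih =>
    intro hn s h
    have h1 : P Z F H r (1 ::ₘ (Multiset.replicate n a + (a ::ₘ s))) := by
      rw [Multiset.add_cons, ← Multiset.cons_add, ← Multiset.replicate_succ]
      exact h
    have h3 := ih (by omega) _ h1
    rw [Multiset.add_cons] at h3
    have h5 := P_merge hC hr h2 h4 (hU n (by omega)) (by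
      have := hU 1 (by omega)
      rwa [pow_one] at this) h3
    rw [← pow_succ, ← Multiset.cons_add, ← Multiset.replicate_succ] at h5
    exact h5

end

end Pool.Agent.H20.TT
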