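import Pool.Agent.H20.TT.Core

/-!
Codimension two suffices for products of curves over finite fields: the theorem.
-/

namespace Pool.Agent.H20.TT

open scoped TensorProduct

variable {Ω : Type*} [Field Ω] {W : Type*} [AddCommGroup W] [Module Ω W]
variable {q : ℕ} {F : W →ₗ[Ω] W} {B : W →ₗ[Ω] W →ₗ[Ω] Ω} {H E : Submodule Ω W} {Z : Cycles B}
  {r : Ω}

theorem P_nsmul {s : Multiset Ω} (h : P Z F H r s) (n : ℕ) : P Z F H r (n • s) := by
  induction n with
  | zero => simpa using (P_zero : P Z F H r 0)
  | succ n ih =>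
    rw [succ_nsmul]
    exact P_add ih h

omit [Field Ω] in
theorem nsmul_map (f : Ω → Ω) (m : ℕ) (l : List Ω) :
    m • ((l.map f : List Ω) : Multiset Ω) = (l.map fun ξ => Multiset.replicate m (f ξ)).sum := by
  induction l with
  | nil => simp
  | cons a l ih =>
    rw [List.map_cons, List.map_cons, List.sum_cons, ← ih, ← Multiset.cons_coe,
      ← Multiset.singleton_add, nsmul_add, Multiset.nsmul_singleton]

theorem map_mul_prod (r : Ω) (l : List Ω) :
    (l.map fun ξ => r * ξ).prod = r ^ l.length * l.prod := by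
  induction l with
  | nil => simp
  | cons a l ih =>
    rw [List.map_cons, List.prod_cons, ih, List.prod_cons, List.length_cons, pow_succ]
    ring

theorem map_prod_pow (f : Ω → Ω) (m : ℕ) (hf : ∀ ξ, f ξ ^ m = ξ) (l : List Ω) :
    (l.map f).prod ^ m = l.prod := by
  induction l with
  | nil => simp
  | cons a l ih => rw [List.map_cons, List.prod_cons, mul_pow, hf, ih, List.prod_cons]

/-- `r * (product of m-th roots)` is a Weil number. -/
theorem weil_list (hq : 0 < q) (hr : r ^ 2 = (q : Ω)) {m : ℕ} (hm : m ≠ 0) (l : List Ω)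
    (hl : ∀ ξ ∈ l, IsWeil q 1 (r * ξ)) (hlen : l.length ≤ m) {g : Ω} (hg : g ^ m = l.prod) :
    IsWeil q 1 (r * g) := by
  have h1 : IsWeil q l.length (l.map fun ξ => r * ξ).prod := by
    have := IsWeil.list_prod hq (l.map fun ξ => r * ξ) (by
      intro a ha
      obtain ⟨ξ, hξ, rfl⟩ := List.mem_map.1 ha
      exact hl ξ hξ)
    rwa [List.length_map] at this
  have h2 : IsWeil q ((m - l.length) * 1) (r ^ (m - l.length)) := by
    refine isWeil_pow hq ?_ _
    have := weil_r (q := q) hr
    rwa [mul_one] at this
  have h3 := h1.mul hq h2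
  rw [mul_one, Nat.add_sub_cancel' hlen, map_mul_prod, mul_right_comm, ← pow_add,
    Nat.add_sub_cancel' hlen] at h3
  refine h3.root hm ?_
  rw [mul_pow, hg]

theorem core [IsAlgClosed Ω] [CharZero Ω] (hq : 0 < q) (hC : Curves q F B H E)
    (hr : r ^ 2 = (q : Ω)) (h2 : Pairs F H q Z) (h4 : Quads F H E q Z) (l : List Ω)
    (hl : ∀ ξ ∈ l, IsWeil q 1 (r * ξ)) (k : ℕ) (hlen : l.length = 2 * k)
    (hprod : Sim l.prod 1) : P Z F H r (l : Multiset Ω) := by
  by_cases hm : l.length = 0
  · rw [List.length_eq_zero_iff] at hm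
    subst hm
    exact P_zero
  set m := l.length with hmdef
  have hex : ∀ ξ : Ω, ∃ g : Ω, g ^ m = ξ := fun ξ =>
    IsAlgClosed.exists_pow_nat_eq ξ (Nat.pos_of_ne_zero hm)
  choose f hf using hex
  have hUj : ∀ ξ ∈ l, ∀ j ≤ m, IsWeil q 1 (r * f ξ ^ j) := by
    intro ξ hξ j hj
    refine weil_list hq hr hm (List.replicate j ξ) ?_ (by simpa using hj) ?_
    · intro a ha
      rw [List.eq_of_mem_replicate ha]
      exact hl ξ hξ
    · rw [← pow_mul, mul_comm, pow_mul, hf, List.prod_replicate]
  -- step 1
  have h5 : P Z F H r ((l.map f : List Ω) : Multiset Ω) := by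
    have h6 : P Z F H r ((1 * (l.map f).prod) ::ₘ
        (Multiset.replicate (l.map f).length 1 + {1})) := by
      rw [one_mul, List.length_map, ← hmdef]
      have h7 : Sim (1 : Ω) (l.map f).prod := by
        refine Sim.of_pow hm ?_
        rw [map_prod_pow f m hf, one_pow]
        exact hprod.symm
      refine P_congr h7 ?_
      have h8 := P_replicate (Z := Z) (F := F) (H := H) hr h2 (k + 1)
      rw [show 2 * (k + 1) = m + 1 + 1 by omega, Multiset.replicate_succ,
        Multiset.replicate_succ] at h8
      have h9 : (1 : Ω) ::ₘ (Multiset.replicate m 1 + {1}) =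
          1 ::ₘ 1 ::ₘ Multiset.replicate m 1 := by
        rw [add_comm, Multiset.singleton_add]
      rwa [h9]
    have h7 := P_split_list hC hr h4 (l.map f) 1 {1} (fun n => by
      rw [one_mul, ← List.map_take]
      refine weil_list hq hr hm (l.take n) (fun ξ hξ => hl ξ (List.mem_of_mem_take hξ)) ?_
        (map_prod_pow f m hf _)
      rw [List.length_take]
      exact min_le_right _ _) h6
    rw [add_comm, Multiset.singleton_add] at h7
    exact P_contract hC hr h7
  -- step 2
  have h6 := P_nsmul h5 m
  rw [nsmul_map] at h6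
  -- step 3
  have h7 : ∀ l' : List Ω, (∀ ξ ∈ l', ξ ∈ l) → ∀ s : Multiset Ω,
      P Z F H r ((l'.map fun ξ => Multiset.replicate m (f ξ)).sum + s) →
      P Z F H r ((l' : Multiset Ω) + Multiset.replicate (l'.length * (m + 1)) 1 + s) := by
    intro l'
    induction l' with
    | nil =>
      intro _ s h
      simpa using h
    | cons ξ l' ih =>
      intro hmem s h
      have h8 := P_add (P_one_one (Z := Z) (F := F) (H := H) hr h2) h
      have h9 : ({1, 1} : Multiset Ω) +
          (((ξ :: l').map fun ξ => Multiset.replicate m (f ξ)).sum + s) =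
          1 ::ₘ (Multiset.replicate m (f ξ) +
            (1 ::ₘ ((l'.map fun ξ => Multiset.replicate m (f ξ)).sum + s))) := by
        simp only [Multiset.insert_eq_cons, ← Multiset.singleton_add, List.map_cons,
          List.sum_cons]
        abel
      rw [h9] at h8
      have h10 := P_merge_pow hC hr h2 h4 (f ξ) m (hUj ξ (hmem ξ (by simp))) m le_rfl _ h8
      rw [hf] at h10
      have h11 : ξ ::ₘ (Multiset.replicate m 1 +
          (1 ::ₘ ((l'.map fun ξ => Multiset.replicate m (f ξ)).sum + s))) =
          (l'.map fun ξ => Multiset.replicate m (f ξ)).sum +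
            (ξ ::ₘ (Multiset.replicate (m + 1) 1 + s)) := by
        rw [Multiset.replicate_succ]
        simp only [← Multiset.singleton_add]
        abel
      rw [h11] at h10
      have h12 := ih (fun x hx => hmem x (by simp [hx])) _ h10
      have h13 : (l' : Multiset Ω) + Multiset.replicate (l'.length * (m + 1)) 1 +
          (ξ ::ₘ (Multiset.replicate (m + 1) 1 + s)) =
          ((ξ :: l' : List Ω) : Multiset Ω) +
            Multiset.replicate ((ξ :: l').length * (m + 1)) 1 + s := by
        rw [List.length_cons, Nat.succ_mul,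
          Multiset.replicate_add (l'.length * (m + 1)) (m + 1), ← Multiset.cons_coe]
        simp only [← Multiset.singleton_add]
        abel
      rwa [h13] at h12
  have h8 := h7 l (fun _ h => h) 0 (by rwa [add_zero])
  rw [add_zero, ← hmdef, show m * (m + 1) = 2 * (k * (m + 1)) by rw [hlen]; ring, add_comm] at h8
  exact P_contract_replicate hC hr _ h8

end Pool.Agent.H20.TT
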