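import Pool.Agent.H20.TT.Basic

/-!
Words of vectors whose tensor product is algebraic, as multisets.
-/

namespace Pool.Agent.H20.TT

open scoped TensorProduct

/-- A perm of lists is given by an equivalence of indices. -/
theorem perm_equiv {α : Type*} {l l' : List α} (h : l.Perm l') :
    ∃ e : Fin l.length ≃ Fin l'.length, ∀ i, l'.get (e i) = l.get i := by
  induction h with
  | nil => exact ⟨Equiv.refl _, fun i => rfl⟩
  | @cons x l l' _ ih =>
    obtain ⟨e, he⟩ := ih
    refine ⟨(finSuccEquiv l.length).trans ((Equiv.optionCongr e).trans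
      (finSuccEquiv l'.length).symm), fun i => ?_⟩
    refine Fin.cases ?_ (fun j => ?_) i
    · simp
    · simpa using he j
  | swap x y l =>
    refine ⟨Equiv.swap 0 1, fun i => ?_⟩
    refine Fin.cases ?_ (fun j => ?_) i
    · simp
    · refine Fin.cases ?_ (fun k => ?_) j
      · have : (Fin.succ 0 : Fin (l.length + 2)) = 1 := rfl
        simp
      · rw [Equiv.swap_apply_of_ne_of_ne]
        · simp
        · exact Fin.succ_ne_zero _
        · intro h
          have := Fin.succ_injective _ (show Fin.succ k.succ = Fin.succ 0 from h)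
          exact Fin.succ_ne_zero _ this
  | trans _ _ ih1 ih2 =>
    obtain ⟨e1, h1⟩ := ih1
    obtain ⟨e2, h2⟩ := ih2
    exact ⟨e1.trans e2, fun i => by simpa using (h2 (e1 i)).trans (h1 i)⟩

variable {Ω : Type*} [Field Ω] {W : Type*} [AddCommGroup W] [Module Ω W]

/-- Algebraic classes: subspaces of the tensor powers of `W`, closed under exterior products,
permutations of the factors, and contraction of the first two factors by the form `B`. -/
structure Cycles (B : W →ₗ[Ω] W →ₗ[Ω] Ω) where
  /-- the classes of weight `n` -/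
  A : ∀ n : ℕ, Submodule Ω (⨂[Ω]^n W)
  one_mem : PiTensorProduct.tprod Ω (fun i : Fin 0 => (i.elim0 : W)) ∈ A 0
  mul_mem : ∀ {m n : ℕ} {x : ⨂[Ω]^m W} {y : ⨂[Ω]^n W}, x ∈ A m → y ∈ A n →
    TensorPower.mulEquiv (x ⊗ₜ[Ω] y) ∈ A (m + n)
  perm_mem : ∀ {n : ℕ} (σ : Equiv.Perm (Fin n)) {x : ⨂[Ω]^n W}, x ∈ A n →
    PiTensorProduct.reindex Ω (fun _ => W) σ x ∈ A n
  contr_mem : ∀ {n : ℕ} {x : ⨂[Ω]^(n + 2) W}, x ∈ A (n + 2) → contr B n x ∈ A n

namespace Cycles

variable {B : W →ₗ[Ω] W →ₗ[Ω] Ω} (Z : Cycles B)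

/-- The tensor product of the vectors of the list is algebraic. -/
def onL (l : List W) : Prop := PiTensorProduct.tprod Ω l.get ∈ Z.A l.length

theorem tprod_congr {m n : ℕ} (h : m = n) (e : Fin m ≃ Fin n) (v : Fin m → W) (v' : Fin n → W)
    (hv : ∀ i, v' (e i) = v i) (hm : PiTensorProduct.tprod Ω v ∈ Z.A m) :
    PiTensorProduct.tprod Ω v' ∈ Z.A n := by
  subst h
  have := Z.perm_mem e hm
  rw [PiTensorProduct.reindex_tprod] at this
  convert this using 2
  funext i
  rw [← hv (e.symm i), Equiv.apply_symm_apply]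

theorem gl_perm {l l' : List W} (h : l.Perm l') (hl : Z.onL l) : Z.onL l' := by
  obtain ⟨e, he⟩ := perm_equiv h
  exact Z.tprod_congr h.length_eq e _ _ he hl

/-- The tensor product of the vectors of the multiset, in any order, is algebraic. -/
def Good (s : Multiset W) : Prop := Z.onL s.toList

theorem good_coe (l : List W) : Z.Good (l : Multiset W) ↔ Z.onL l := by
  have h : (Multiset.toList (l : Multiset W)).Perm l := by
    rw [← Multiset.coe_eq_coe, Multiset.coe_toList]
  exact ⟨fun h1 => Z.gl_perm h h1, fun h1 => Z.gl_perm h.symm h1⟩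

theorem good_zero : Z.Good 0 := by
  rw [← Multiset.coe_nil, good_coe]
  refine Z.tprod_congr (m := 0) (n := ([] : List W).length) rfl (Equiv.refl _) _ _ ?_ Z.one_mem
  intro i
  exact i.elim0

theorem good_add {s t : Multiset W} (hs : Z.Good s) (ht : Z.Good t) : Z.Good (s + t) := by
  induction s using Quotient.inductionOn with
  | h l =>
  induction t using Quotient.inductionOn with
  | h l' =>
  have hs' : Z.onL l := (Z.good_coe l).1 hs
  have ht' : Z.onL l' := (Z.good_coe l').1 ht
  change Z.Good ((l : Multiset W) + (l' : Multiset W))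
  rw [Multiset.coe_add, good_coe]
  have h1 := Z.mul_mem hs' ht'
  rw [← TensorPower.gMul_def, TensorPower.tprod_mul_tprod] at h1
  refine Z.tprod_congr (List.length_append).symm (finCongr (List.length_append).symm) _ _ ?_ h1
  intro i
  refine Fin.addCases (fun j => ?_) (fun j => ?_) i
  · simp
  · simp

theorem good_contr {s : Multiset W} {x y : W} (h : Z.Good (x ::ₘ y ::ₘ s)) (hB : B x y ≠ 0) : Z.Good s := by
  induction s using Quotient.inductionOn with
  | h l =>
  have h' : Z.Good ((x :: y :: l : List W) : Multiset W) := h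
  rw [good_coe] at h'
  have h1 := Z.contr_mem h'
  rw [contr_tprod] at h1
  have h2 := (Z.A _).smul_mem (B x y)⁻¹ h1
  rw [smul_smul] at h2
  have h3 : (B x y)⁻¹ * B ((x :: y :: l).get 0) ((x :: y :: l).get 1) = 1 :=
    inv_mul_cancel₀ hB
  rw [h3, one_smul] at h2
  exact (Z.good_coe l).2 h2

end Cycles

end Pool.Agent.H20.TT
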